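import Pool.Agent.H20.HD.OT

/-!
# MP_e37c09_lc: module KE, the argument of Ketonen
-/

open Ordinal Cardinal Order Set
open scoped ZFSet

universe u

namespace Pool.Agent.H62.HD.KE

open _root_.HD Pool.Agent.H20.HD.OT

theorem do_succ : DR.{u} fun i j => j = succ i := by
  refine ((DO.lt 0 1).and (DO.all (R := fun y w => w 0 < y → w 1 ≤ y)
    ((DO.lt 1 0).imp (DO.le 2 0)))).congr fun w => ?_
  constructor
  · intro h
    have h' : w 1 = succ (w 0) := h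
    rw [h']
    exact ⟨lt_succ _, fun y hy => Order.succ_le_of_lt hy⟩
  · rintro ⟨h1, h2⟩
    show w 1 = succ (w 0)
    exact le_antisymm (h2 _ (lt_succ _)) (Order.succ_le_of_lt h1)

/-- the `i`-th and the next element of `I` enclose `a` -/
def Bx (I : Set Ordinal.{u}) (i a : Ordinal.{u}) : Prop :=
  ∃ ξ ξ', nth I i ξ ∧ nth I (succ i) ξ' ∧ ξ ≤ a ∧ a < ξ'

theorem dr_bx {I : Set Ordinal.{u}} (hI : DS I) : DR (Bx I) := by
  have hN : DR fun a z => nth I a z := All.db (fun a _ => a ∈ I) (hI.congr fun _ => Iff.rfl)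
  refine (DO.ex (R := fun i1 w => i1 = succ (w 0) ∧ ∃ ξ, ∃ ξ', nth I (w 0) ξ ∧ nth I i1 ξ' ∧
    ξ ≤ w 1 ∧ w 1 < ξ') ?_).congr fun w => ?_
  · refine (DO.s2 (X := fun i j => j = succ i) do_succ 1 0).and ?_
    refine DO.ex (R := fun ξ w => ∃ ξ', nth I (w 1) ξ ∧ nth I (w 0) ξ' ∧ ξ ≤ w 2 ∧ w 2 < ξ') ?_
    refine DO.ex (R := fun ξ' w => nth I (w 2) (w 0) ∧ nth I (w 1) ξ' ∧ w 0 ≤ w 3 ∧ w 3 < ξ') ?_
    exact (hN.s2 3 1).and ((hN.s2 2 0).and ((DO.le 1 4).and (DO.lt 4 0)))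
  · constructor
    · rintro ⟨ξ, ξ', h⟩
      exact ⟨succ (w 0), rfl, ξ, ξ', h⟩
    · rintro ⟨i1, rfl, ξ, ξ', h⟩
      exact ⟨ξ, ξ', h⟩

theorem bx_uniq {I : Set Ordinal.{u}} {i j a : Ordinal.{u}} (h : Bx I i a) (h' : Bx I j a) :
    i = j := by
  have key : ∀ i j, Bx I i a → Bx I j a → ¬ i < j := by
    rintro i j ⟨ξ, ξ', h1, h2, h3, h4⟩ ⟨η, η', g1, g2, g3, g4⟩ hij
    have h5 : ξ' ≤ η := by
      rcases eq_or_lt_of_le (Order.succ_le_of_lt hij) with h | h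
      · rw [h] at h2
        rw [nth_uniq All.vh h2 g1]
      · exact (((All.vh I).2.1 _ _ _ _ h2 g1).1 h).le
    exact absurd (h4.trans_le (h5.trans g3)) (lt_irrefl _)
  rcases lt_trichotomy i j with h1 | h1 | h1
  · exact absurd h1 (key i j h h')
  · exact h1
  · exact absurd h1 (key j i h' h)

theorem func_of {τ lam : Ordinal.{u}} {S : Set Ordinal.{u}}
    {R : Ordinal.{u} → Ordinal.{u} → Prop} (h1 : ∀ t < τ, ∀ i < lam, R t i → i ∈ S)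
    (h2 : ∀ t < τ, ∃ i < lam, R t i) (h3 : ∀ t < τ, ∀ i j, R t i → R t j → i = j) :
    ZFSet.IsFunc τ.toZFSet (os lam S) (rs τ lam R) := by
  refine ⟨?_, ?_⟩
  · intro p hp
    obtain ⟨a, ha, b, hb, hab, rfl⟩ := mem_rs.1 hp
    rw [ZFSet.pair_mem_prod]
    exact ⟨toZFSet_mem_toZFSet_iff.2 ha, ord_mem_os.2 ⟨hb, h1 a ha b hb hab⟩⟩
  · intro z hz
    obtain ⟨a, ha, rfl⟩ := mem_toZFSet_iff.1 hz
    obtain ⟨i, hi, hR⟩ := h2 a ha
    refine ⟨i.toZFSet, pair_mem_rs.2 ⟨ha, hi, hR⟩, ?_⟩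
    intro w hw
    obtain ⟨a', ha', b, hb, hab, he⟩ := mem_rs.1 hw
    obtain ⟨e1, e2⟩ := ZFSet.pair_injective he
    have e3 := toZFSet_injective e1
    subst e3
    rw [e2, h3 a ha b i hab hR]

/-- small sets -/
theorem pk_of {κ lam τ : Ordinal.{u}} (hτ : τ < κ) {S I T : Set Ordinal.{u}} (hI : DS I)
    (hT : DS T) (hS : ∀ i < lam, (i ∈ S ↔ ∃ a ∈ T, Bx I i a))
    (hot : ∀ z ∈ T, ∃ a < τ, nth T a z) : os lam S ∈ PkHOD κ lam := by
  unfold PkHOD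
  rw [ZFSet.mem_sep, ZFSet.mem_powerset]
  refine ⟨?_, ?_⟩
  · intro z hz
    obtain ⟨a, ha, -, rfl⟩ := mem_os.1 hz
    exact toZFSet_mem_toZFSet_iff.2 ha
  by_cases hne : ∃ i < lam, i ∈ S
  · obtain ⟨i0, hi0, hi0S⟩ := hne
    have hN : DR fun a z => nth T a z := All.db (fun a _ => a ∈ T) (hT.congr fun _ => Iff.rfl)
    let G : Ordinal.{u} → Ordinal.{u} → Prop := fun t i => i < lam ∧ ∃ a, nth T t a ∧ Bx I i a
    have hG : DR G := by
      refine (DO.ltc 1 lam).and ?_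
      refine DO.ex (R := fun a w => nth T (w 0) a ∧ Bx I (w 1) a) ?_
      exact (hN.s2 1 0).and ((dr_bx hI).s2 2 0)
    have hGu : ∀ t i j, G t i → G t j → i = j := by
      rintro t i j ⟨-, a, ha, h1⟩ ⟨-, a', ha', h2⟩
      rw [nth_uniq All.vh ha' ha] at h2
      exact bx_uniq h1 h2
    let R : Ordinal.{u} → Ordinal.{u} → Prop := fun t i => G t i ∨ (i = i0 ∧ ¬ ∃ i', G t i')
    have hR : DR R := by
      refine hG.or ((DO.eqc 1 i0).and (DO.not ?_))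
      exact DO.ex (R := fun i' w => G (w 0) i') (hG.s2 1 0)
    refine ⟨τ, hτ, rs τ lam R, hod_rs hR τ lam, func_of ?_ ?_ ?_, ?_⟩
    · intro t _ i hi h
      rcases h with ⟨-, a, ha, hb⟩ | ⟨rfl, -⟩
      · exact (hS i hi).2 ⟨a, ha.1, hb⟩
      · exact hi0S
    · intro t _
      by_cases h : ∃ i', G t i'
      · obtain ⟨i', hi'⟩ := h
        exact ⟨i', hi'.1, Or.inl hi'⟩
      · exact ⟨i0, hi0, Or.inr ⟨rfl, h⟩⟩
    · intro t _ i j h h'
      rcases h with h | ⟨rfl, h⟩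
      · rcases h' with h' | ⟨-, h'⟩
        · exact hGu t i j h h'
        · exact absurd ⟨i, h⟩ h'
      · rcases h' with h' | ⟨rfl, -⟩
        · exact absurd ⟨j, h'⟩ h
        · rfl
    · intro b hb
      obtain ⟨i, hi, hiS, rfl⟩ := mem_os.1 hb
      obtain ⟨a, haT, hbx⟩ := (hS i hi).1 hiS
      obtain ⟨t, ht, hta⟩ := hot a haT
      exact ⟨t, ht, pair_mem_rs.2 ⟨ht, hi, Or.inl ⟨hi, a, hta, hbx⟩⟩⟩
  · push Not at hne
    refine ⟨0, bot_le.trans_lt hτ, rs 0 lam (fun _ _ => False), hod_rs (R := fun _ _ => False) (DO.cst False) 0 lam,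
      func_of ?_ ?_ ?_, ?_⟩
    · intro t ht
      exact absurd ht (not_lt.2 bot_le)
    · intro t ht
      exact absurd ht (not_lt.2 bot_le)
    · intro t ht
      exact absurd ht (not_lt.2 bot_le)
    · intro b hb
      obtain ⟨i, hi, hiS, -⟩ := mem_os.1 hb
      exact absurd hiS (hne i hi)

/-- KE. -/
theorem ke (hKF : T_KF.{u}) (hKI : T_KI.{u}) : T_KE.{u} := by
  intro en hen M κ lam c A hM hlam hat hreg hκ hL
  obtain ⟨F, hF, hFlt, hFm, hFn⟩ := hKF en hen M κ lam c A hM hlam hat hκ hL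
  obtain ⟨hI, hIi⟩ := hKI lam F hlam hreg hF hFlt hFm
  set I : Set Ordinal.{u} := {ξ | ξ < lam ∧ ∀ ζ < ξ, F ζ ≤ ξ} with hIdef
  have hlim : IsSuccLimit lam := hreg.1
  refine ⟨fun β i => ∃ a, A β a ∧ Bx I i a, ?_, ?_, ?_⟩
  · refine DO.ex (R := fun a w => A (w 0) a ∧ Bx I (w 1) a) ?_
    exact (hL.dr.s2 1 0).and ((dr_bx hI).s2 2 0)
  · intro hp
    refine All.vb M.ord lam (succ κ) hlim (hlim.succ_lt hκ) (hp.mono fun β hβ hβX hβc => ?_)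
    by_contra hc
    have hκβ : κ < β := by
      have h0 : ¬ β < succ κ := hc
      exact Order.succ_le_iff.1 (not_lt.1 h0)
    have hcof : β.cof = M := Cardinal.ord_injective hβc
    obtain ⟨τ, hτ, hot⟩ := hL.otp β hκβ hβ hcof
    apply hβX.2
    exact pk_of hτ hI (T := {a | A β a}) (DO.sect1 hL.dr β) (fun i _ => Iff.rfl) hot
  · intro i hi hp
    obtain ⟨ξ, hξ⟩ := hIi i hi
    obtain ⟨ξ', hξ'⟩ := hIi (succ i) (hlim.succ_lt hi)
    have h1 : ξ < ξ' := ((All.vh I).2.1 _ _ _ _ hξ hξ').1 (lt_succ i)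
    have h2 : F ξ ≤ ξ' := hξ'.1.2 ξ h1
    refine hFn ξ hξ.1.1 (hp.mono fun β _ hβX _ => ⟨hβX.1, ?_⟩)
    rintro ⟨a, ha, h3, h4⟩
    exact hβX.2 ⟨a, ha, ξ, ξ', hξ, hξ', h3, h4.trans_le h2⟩

end Pool.Agent.H62.HD.KE
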