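import Pool.Agent.H7.HD.Targets5
import Pool.Agent.H3.HD.Iter

/-!
# MP_e37c09_lc: module KI, the closure points of `F`
-/

open Ordinal Cardinal Order Set
open scoped ZFSet

universe u

namespace Pool.Agent.H62.HD.KI

open _root_.HD

/-- KI. -/
theorem ki (hOT : T_OT.{u}) : T_KI.{u} := by
  intro lam F hlam hreg hF hlt hmono
  have hlim : IsSuccLimit lam := hreg.1
  have hFle : DO fun w : ℕ → Ordinal.{u} => F (w 0) ≤ w 1 := by
    refine (DO.ex (R := fun y w => y = F (w 0) ∧ y ≤ w 1) ((DO.s2 (X := fun a b => b = F a) hF 1 0).and (DO.le 0 2))).congr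
      fun w => ?_
    simp
  have hI : DS {ξ | ξ < lam ∧ ∀ ζ < ξ, F ζ ≤ ξ} := by
    refine DO.and (DO.ltc 0 lam) ?_
    exact DO.allLt (R := fun ζ w => F ζ ≤ w 0) 0 hFle
  refine ⟨hI, hOT lam _ hreg hI (fun z hz => hz.1) ?_⟩
  intro b hb
  obtain ⟨x, hx, s, hs0, hsx, hsP, hsy⟩ := Pool.Agent.H3.HD.exists_iter hlam
    (fun b b' => F b ≤ b') (fun b hb => ⟨max (F b) (succ b), max_lt (hlt b hb) (hlim.succ_lt hb),
      (lt_succ b).trans_le (le_max_right _ _), le_max_left _ _⟩) b hb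
  refine ⟨x, ⟨hx, fun ζ hζ => ?_⟩, ?_⟩
  · obtain ⟨n, hn⟩ := hsy ζ hζ
    exact (hmono ζ (s n) hn.le ((hsx n).trans hx)).trans ((hsP n).trans (hsx (n + 1)).le)
  · rw [← hs0]
    exact (hsx 0).le

end Pool.Agent.H62.HD.KI
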