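import Pool.Agent.H20.HD.CS

/-!
# MP_e37c09_lc: module SC, strong compactness in HOD
-/

open Ordinal Cardinal Order Set
open scoped ZFSet

universe u

namespace Pool.Agent.H62.HD.SC

open _root_.HD

/-- SC. -/
theorem sc (hCA : T_CA.{u}) (hKE : T_KE.{u}) (hFU : T_FU.{u}) (hCF : T_CF.{u})
    (hCS : T_CS.{u}) : T_SC.{u} := by
  intro D M hD hM hMD κ lam hreg hκ hDl hτ
  obtain ⟨en, hen⟩ := All.en.{u}
  have hlam : ℵ₀ < lam.cof := hD.2.2.1.trans hDl
  have hns : NSX D.ord M.ord lam := All.ha D.ord M.ord lam (hD.2.2.2 M hM hMD lam hDl.le)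
  obtain ⟨c, -, hat⟩ := All.hb2 en hen D M lam hD.1 hD.2.1 hD.2.2.1 hM hMD hDl hns univ
    ((DO.cst True).congr fun _ => by simp) (All.vc M lam hM (hMD.trans hDl))
  obtain ⟨A, hA⟩ := hCA M κ lam hM hκ hτ
  obtain ⟨x, hx⟩ := hKE en hen M κ lam c A hM hlam hat hreg hκ hA
  refine ⟨hFU en hen M κ lam c x hlam hat hx, fun hκr => hCF en hen M κ lam c x hlam hat hx hκr hκ,
    ?_⟩
  rintro K rfl hDK
  by_cases hK : K.IsRegular
  · exact hCF en hen M K.ord lam c x hlam hat hx (Pool.Agent.H20.HD.CS.regHOD_ord hK) hκ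
  · exact hCS en hen D M K lam c x hlam hat hx hD hDK hK hκ

end Pool.Agent.H62.HD.SC
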