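import Mathlib

/-!
TEN1: the interpolation of the first case, and the count of fibres.
-/

set_option autoImplicit false

namespace Pool.Agent.H62.HD

/-- fibres of a saturated set -/
theorem fibre {α β : Type} [DecidableEq α] [DecidableEq β] (f : α → β) (S S₁ : Finset α) (b : ℝ)
    (h1 : ∀ W ∈ S₁, b ≤ ((S.filter (fun W' => f W' = f W)).card : ℝ))
    (h2 : ∀ W ∈ S₁, S.filter (fun W' => f W' = f W) ⊆ S₁) (TT : Finset β)
    (hTT : TT ⊆ S₁.image f) :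
    b * TT.card ≤ ((S₁.filter (fun W => f W ∈ TT)).card : ℝ) := by
  have e1 : (S₁.filter (fun W => f W ∈ TT)).card =
      ∑ u ∈ TT, ((S₁.filter (fun W => f W ∈ TT)).filter (fun W => f W = u)).card :=
    Finset.card_eq_sum_card_fiberwise fun W hW => (Finset.mem_filter.1 hW).2
  rw [e1, Nat.cast_sum, mul_comm, ← nsmul_eq_mul]
  refine Finset.card_nsmul_le_sum _ _ _ fun u hu => ?_
  obtain ⟨W, hW, rfl⟩ := Finset.mem_image.1 (hTT hu)
  refine (h1 W hW).trans ?_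
  rw [Nat.cast_le]
  refine Finset.card_le_card fun W' hW' => ?_
  have h3 := h2 W hW hW'
  have h4 := (Finset.mem_filter.1 hW').2
  rw [Finset.mem_filter, Finset.mem_filter, h4]
  exact ⟨⟨h3, hu⟩, rfl⟩

/-- comparison of exponents -/
theorem exps {y δ ε : ℝ} (hy : 6 ≤ y) (hδ : 0 < δ) (hε : 0 < ε) :
    100 * y * δ ≤ 10 * (100 * y) * (δ + ε) ∧ 2 * y * δ ≤ 10 * (100 * y) * (δ + ε) ∧
    4 * δ ≤ 10 * (100 * y) * (δ + ε) ∧
    δ + 10 * (100 * y) * (δ + ε) ≤ (100000 * y ^ 2 - 1) * (δ + ε) := by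
  have h1 : 0 < y * δ := by positivity
  have h2 : 0 < y * ε := by positivity
  have h3 : 6 * δ ≤ y * δ := mul_le_mul_of_nonneg_right hy hδ.le
  refine ⟨by nlinarith only [h1, h2], by nlinarith only [h1, h2], by nlinarith only [h1, h2, h3],
    ?_⟩
  have e1 : δ + 10 * (100 * y) * (δ + ε) ≤ (1 + 10 * (100 * y)) * (δ + ε) := by
    have : (1 + 10 * (100 * y)) * (δ + ε) = δ + 10 * (100 * y) * (δ + ε) + ε := by ring
    rw [this]
    linarith only [hε]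
  refine e1.trans (mul_le_mul_of_nonneg_right ?_ (by linarith only [hδ, hε]))
  nlinarith only [hy]

/-- comparison of exponents -/
theorem exps2 {lo γ δ ε : ℝ} (hlo : 1 ≤ lo) (hδ : 0 < δ) (hγ : 0 < γ)
    (h1 : δ ≤ γ / (50 * lo)) (h2 : ε ≤ γ / (50 * lo)) : δ + 10 * lo * (δ + ε) ≤ γ := by
  rw [le_div_iff₀ (by positivity)] at h1 h2
  have e4 : δ ≤ δ * lo := le_mul_of_one_le_right hδ.le hlo
  linarith only [h1, h2, e4, hγ]

/-- the last step of the second case -/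
theorem fin2 {P₁ P₂ Θ tt b a t S₂ Y : ℝ} (h1 : t ≤ P₁ * Θ * tt) (h2 : P₁ ≤ P₂) (hΘ : 0 ≤ Θ)
    (htt : 0 ≤ tt) (hP : 0 ≤ P₂) (hb : 0 ≤ b) (h3 : b * tt ≤ S₂) (h4 : S₂ * a ^ 2 ≤ Y) :
    t * b * a ^ 2 ≤ P₂ * Θ * Y := by
  calc t * b * a ^ 2 = t * (b * a ^ 2) := by ring
    _ ≤ P₁ * Θ * tt * (b * a ^ 2) := mul_le_mul_of_nonneg_right h1 (by positivity)
    _ ≤ P₂ * Θ * tt * (b * a ^ 2) := by gcongr
    _ = P₂ * Θ * ((b * tt) * a ^ 2) := by ring
    _ ≤ P₂ * Θ * (S₂ * a ^ 2) := by gcongr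
    _ ≤ P₂ * Θ * Y := mul_le_mul_of_nonneg_left h4 (by positivity)

/-- the last step of the first case -/
theorem fin1 {Xc Hx Rδ N' Λ Y Cf C' Rp Rq : ℝ} (h1 : Xc ≤ Rδ * N') (hH : 0 ≤ Hx)
    (h2 : N' * Hx ≤ 4 * Λ * Y) (hRδ : 0 ≤ Rδ) (hY : 0 ≤ Y) (hΛ : Λ = C' * Rp) (hC : 0 ≤ C')
    (h3 : 4 * C' ≤ Cf) (h4 : Rδ * Rp ≤ Rq) (hRp : 0 ≤ Rp) : Xc * Hx ≤ Cf * Rq * Y := by
  have e0 : 0 ≤ Rδ * Rp := by positivity
  calc Xc * Hx ≤ Rδ * N' * Hx := mul_le_mul_of_nonneg_right h1 hH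
    _ = Rδ * (N' * Hx) := by ring
    _ ≤ Rδ * (4 * Λ * Y) := mul_le_mul_of_nonneg_left h2 hRδ
    _ = 4 * C' * (Rδ * Rp) * Y := by rw [hΛ]; ring
    _ ≤ Cf * Rq * Y := mul_le_mul_of_nonneg_right
        (mul_le_mul h3 h4 e0 (by linarith only [h3, hC])) hY

/-- the first case of the two-ends estimate -/
theorem case1 {m x n R M a A Λ t b q₄ N' H En : ℝ} (hm : 0 < m) (hx : 0 < x) (hmx : m * x < 4)
    (hR : 1 ≤ R) (hn : 0 < n) (hM : 1 ≤ M) (ha : 0 < a) (hA : 0 < A) (hΛ : 0 < Λ) (ht : 0 ≤ t)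
    (hb : 0 ≤ b) (hN : 0 ≤ N') (hH : 0 < H)
    (h1 : N' * H ^ (2 * (m + 2) / m) ≤ Λ * M ^ (2 / m) * a ^ (2 * (m + 2) / m) * (t * b) *
      R ^ ((m + 2) / 2))
    (h2 : N' * H ^ 2 ≤ Λ * q₄ * M * b * a ^ 2 * R ^ ((m + 1) / 2))
    (h3 : q₄ * M ≤ 4 * t * n) (hE : t * b * a ^ 2 * R ^ ((m + 2) / 2) ≤ En)
    (hc : (n / Real.sqrt R) ^ (1 - m * x / 4) * (M * a ^ 2 / A ^ 2) ^ (x / 2) ≤
      R ^ (m * x / 2 - 1)) :
    N' * H ^ (2 + x) ≤ 4 * Λ * (A ^ x * R ^ (m * x / 2 - 1) * En) := by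
  have hR0 : 0 < R := by linarith
  have hM0 : 0 < M := by linarith
  have hs : 0 < Real.sqrt R := Real.sqrt_pos.2 hR0
  set θ := m * x / 4 with hθ
  have hθ0 : 0 < θ := by positivity
  have hθ1 : θ < 1 := by rw [hθ]; linarith
  set D := t * b * a ^ 2 * R ^ ((m + 2) / 2) with hD
  have hD0 : 0 ≤ D := by positivity
  set P := 4 * Λ * D with hP
  have hP0 : 0 ≤ P := by positivity
  set u := n / Real.sqrt R with hu
  have hu0 : 0 < u := by positivity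
  set v := (M * a ^ 2) ^ (2 / m) with hv
  have hv0 : 0 < v := by positivity
  -- exponents
  have eL : N' * H ^ (2 + x) = (N' * H ^ 2) ^ (1 - θ) * (N' * H ^ (2 * (m + 2) / m)) ^ θ := by
    rw [Real.mul_rpow hN (by positivity), Real.mul_rpow hN (by positivity),
      ← Real.rpow_natCast H 2, ← Real.rpow_mul hH.le, ← Real.rpow_mul hH.le]
    have e1 : N' = N' ^ (1 - θ) * N' ^ θ := by
      rw [← Real.rpow_add_of_nonneg hN (by linarith) hθ0.le]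
      rw [sub_add_cancel, Real.rpow_one]
    have e2 : H ^ (2 + x) = H ^ (((2 : ℕ) : ℝ) * (1 - θ)) * H ^ (2 * (m + 2) / m * θ) := by
      rw [← Real.rpow_add hH]
      congr 1
      rw [hθ]
      push_cast
      field_simp
      ring
    rw [e2]
    nth_rewrite 1 [e1]
    ring
  have b2 : N' * H ^ 2 ≤ P * u := by
    refine h2.trans ?_
    have e1 : R ^ ((m + 2) / 2) = R ^ ((m + 1) / 2) * Real.sqrt R := by
      rw [Real.sqrt_eq_rpow, ← Real.rpow_add hR0]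
      congr 1
      ring
    have e2 : P * u = Λ * (4 * t * n) * b * a ^ 2 * R ^ ((m + 1) / 2) := by
      rw [hP, hD, hu, e1]
      field_simp
    rw [e2]
    have e3 : Λ * q₄ * M * b * a ^ 2 * R ^ ((m + 1) / 2) =
        q₄ * M * (Λ * b * a ^ 2 * R ^ ((m + 1) / 2)) := by ring
    have e4 : Λ * (4 * t * n) * b * a ^ 2 * R ^ ((m + 1) / 2) =
        4 * t * n * (Λ * b * a ^ 2 * R ^ ((m + 1) / 2)) := by ring
    rw [e3, e4]
    exact mul_le_mul_of_nonneg_right h3 (by positivity)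
  have b1 : N' * H ^ (2 * (m + 2) / m) ≤ P * v := by
    refine h1.trans ?_
    have e1 : a ^ (2 * (m + 2) / m) = a ^ 2 * (a ^ 2) ^ (2 / m) := by
      rw [← Real.rpow_natCast a 2, ← Real.rpow_mul ha.le, ← Real.rpow_add ha]
      congr 1
      push_cast
      field_simp
    have e2 : v = M ^ (2 / m) * (a ^ 2) ^ (2 / m) := by
      rw [hv, Real.mul_rpow hM0.le (by positivity)]
    have e3 : Λ * M ^ (2 / m) * a ^ (2 * (m + 2) / m) * (t * b) * R ^ ((m + 2) / 2) =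
        Λ * D * v := by
      rw [e1, e2, hD]
      ring
    rw [e3, hP]
    have : 0 ≤ Λ * D * v := by positivity
    nlinarith
  rw [eL]
  have hlow2 : 0 ≤ N' * H ^ 2 := by positivity
  have hlow1 : 0 ≤ N' * H ^ (2 * (m + 2) / m) := by positivity
  have c2 := Real.rpow_le_rpow hlow2 b2 (by linarith : (0 : ℝ) ≤ 1 - θ)
  have c1 := Real.rpow_le_rpow hlow1 b1 hθ0.le
  refine (mul_le_mul c2 c1 (by positivity) (by positivity)).trans ?_
  have e5 : (P * u) ^ (1 - θ) * (P * v) ^ θ = P * (u ^ (1 - θ) * v ^ θ) := by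
    rw [Real.mul_rpow hP0 hu0.le, Real.mul_rpow hP0 hv0.le]
    have e1 : P = P ^ (1 - θ) * P ^ θ := by
      rw [← Real.rpow_add_of_nonneg hP0 (by linarith) hθ0.le]
      rw [sub_add_cancel, Real.rpow_one]
    nth_rewrite 3 [e1]
    ring
  have e6 : v ^ θ = (M * a ^ 2 / A ^ 2) ^ (x / 2) * A ^ x := by
    rw [hv, ← Real.rpow_mul (by positivity)]
    have e7 : 2 / m * θ = x / 2 := by
      rw [hθ]
      field_simp
      ring
    have e8 : A ^ x = (A ^ 2) ^ (x / 2) := by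
      rw [← Real.rpow_natCast A 2, ← Real.rpow_mul hA.le]
      congr 1
      push_cast
      ring
    rw [e7, e8, ← Real.mul_rpow (by positivity) (by positivity)]
    congr 1
    field_simp
  rw [e5, e6]
  calc P * (u ^ (1 - θ) * ((M * a ^ 2 / A ^ 2) ^ (x / 2) * A ^ x))
      = P * A ^ x * (u ^ (1 - θ) * (M * a ^ 2 / A ^ 2) ^ (x / 2)) := by ring
    _ ≤ P * A ^ x * R ^ (m * x / 2 - 1) := mul_le_mul_of_nonneg_left hc (by positivity)
    _ = 4 * Λ * (A ^ x * R ^ (m * x / 2 - 1)) * D := by rw [hP]; ring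
    _ ≤ 4 * Λ * (A ^ x * R ^ (m * x / 2 - 1)) * En :=
        mul_le_mul_of_nonneg_left hE (by positivity)
    _ = 4 * Λ * (A ^ x * R ^ (m * x / 2 - 1) * En) := by ring

end Pool.Agent.H62.HD
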