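import Pool.Agent.H82.HD.TR
import Pool.Agent.H62.HD.TEN1a

/-!
TEN1: two ends in high dimensions.
-/

set_option autoImplicit false

namespace Pool.Agent.H62.HD

open MeasureTheory Set
open Pool.Agent.H83.G
open Pool.Agent.H22.G (co)
open Pool.Agent.H82.HD
open scoped ENNReal NNReal RealInnerProductSpace

theorem pf_TEN1 (hTDA : T_TDA) (hCBA : T_CBA) (hPTC : T_PTC) (hTUB : T_TUB) (hCFN : T_CFN)
    (hBPG : T_BPG) (hAMU : T_AMU) (_hPUS : T_PUS) : T_TEN1 := by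
  classical
  obtain ⟨C₀, hC₀, hCBA⟩ := hCBA
  obtain ⟨s, m₀, hs0, hs1, hm₀, hCFN⟩ := hCFN C₀
  refine ⟨s, m₀, hs0, hs1, hm₀, fun m hm => ?_⟩
  obtain ⟨γ', hγ', hCFN⟩ := hCFN m hm
  have hm4 : 4 ≤ m := hm₀.trans hm
  have hmR : (4 : ℝ) ≤ m := by exact_mod_cast hm4
  have hlo : lo m = 100 * ((m : ℝ) + 2) := rfl
  have hlb : lb m = 100000 * ((m : ℝ) + 2) ^ 2 := rfl
  have hlo0 : 600 ≤ lo m := by rw [hlo]; linarith
  have hy6 : (6 : ℝ) ≤ (m : ℝ) + 2 := by linarith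
  refine ⟨min (γ' / (50 * lo m)) (1 / 100), lt_min (by positivity) (by norm_num),
    fun L hL => ?_⟩
  intro β Ψ ψ δ ε₀ ε₂ B hβ hΨ hδ hδγ hδ1 hε₀ hε₀γ hε₀1 hε₂ hB
  obtain ⟨N₀A, hTDA⟩ := hTDA m L β Ψ ψ δ ε₀ B hm4 hβ hΨ hδ hδ1 hε₀ hε₀1 hB
  have hB' : 1 ≤ B + m + 10 := by linarith
  obtain ⟨N₀P, hPTC⟩ := hPTC m L β δ ε₂ (B + m + 10) hβ hδ hδ1 hε₂ hB'
  obtain ⟨C_B, hC_B, hCBA⟩ := hCBA m (by omega)
  obtain ⟨R₀, hR₀, hCFN⟩ := hCFN C_B
  obtain ⟨hbpadd, hbpsmul, htm, hbpw, hBPGD⟩ := hBPG m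
  obtain ⟨C_D, hC_D, hbpn, -⟩ := hBPGD 3 (by norm_num)
  refine ⟨max N₀A (max N₀P (m + 3)), fun N hN => ?_⟩
  obtain ⟨C_A, hC_A, hTDA⟩ := hTDA N ((le_max_left _ _).trans hN)
  obtain ⟨C_P, hC_P, hPTC⟩ := hPTC N (((le_max_left _ _).trans (le_max_right _ _)).trans hN)
  obtain ⟨C_M, hC_M, hAMU⟩ := hAMU m L N β δ hβ hδ.le
    (((le_max_right _ _).trans (le_max_right _ _)).trans hN)
  set C' : ℝ := 4 + C_A + C_P + C_M + C_B + B with hC'
  have hC'4 : 4 ≤ C' := by rw [hC']; linarith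
  have hR₀δ : 0 < R₀ ^ δ := by positivity
  have hDm : 0 < C_D * ((m : ℝ) + 3) := by positivity
  refine ⟨4 * C' + R₀ ^ δ + 16 * ((m : ℝ) + 2) + C_D * ((m : ℝ) + 3), by linarith, ?_⟩
  set Cf : ℝ := 4 * C' + R₀ ^ δ + 16 * ((m : ℝ) + 2) + C_D * ((m : ℝ) + 3) with hCf
  intro κ R T A H En G z₀ S a b l k QQ ν X hκ0 hκ1 hR hCR hRT hA hH hAH hEn hCls hBC hSep hX
    hS hScard ha hb hsat hEnS hEnB hν hνQ hν2 hXQ hQQ hCk hXH
  have hR0 : 0 < R := by linarith
  have hsR : 0 < Real.sqrt R := Real.sqrt_pos.2 hR0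
  set x : ℝ := (8 / 3 - s) / m with hx
  have hm0 : (0 : ℝ) < m := by linarith
  have hx0 : 0 < x := div_pos (by linarith) hm0
  have hmx : (m : ℝ) * x = 8 / 3 - s := by rw [hx]; field_simp
  -- consequences of the size of `R`
  have hC'R : C' ≤ R ^ δ := by linarith
  have h16 : 16 * ((m : ℝ) + 2) ≤ R ^ δ := by linarith
  have hCDR : C_D * ((m : ℝ) + 3) ≤ R ^ δ := by linarith
  have hm3R : (m : ℝ) + 3 ≤ R ^ δ := by
    refine le_trans ?_ hCDR
    exact le_mul_of_one_le_left (by positivity) hC_D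
  have hR₀R : R₀ ≤ R := by
    by_contra hlt
    have := Real.rpow_lt_rpow hR0.le (not_le.1 hlt) hδ
    linarith
  have hCAC : C_A ≤ C' := by rw [hC']; linarith
  have hCPC : C_P ≤ C' := by rw [hC']; linarith
  have hCMC : C_M ≤ C' := by rw [hC']; linarith
  have hCBC : C_B ≤ C' := by rw [hC']; linarith
  have hBC' : B ≤ C' := by rw [hC']; linarith
  have hCfC : C' ≤ Cf := by rw [hCf]; linarith
  have hC4f : 4 * C' ≤ Cf := by rw [hCf]; linarith
  have hCf0 : 0 ≤ Cf := by linarith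
  have hCB : 1 ≤ C_B := hC_B
  clear_value Cf C' x
  rcases X.eq_empty_or_nonempty with hXe | hXne
  · rw [hXe, Finset.card_empty, Nat.cast_zero, zero_mul]
    positivity
  -- time
  have hT0 : 0 < T := lt_of_lt_of_le (by positivity) hRT
  have hRT16 : 16 * ((m : ℝ) + 2) * R ≤ T := by
    refine le_trans ?_ hRT
    rw [Real.rpow_add hR0, Real.rpow_one, mul_comm]
    refine mul_le_mul_of_nonneg_left (h16.trans ?_) hR0.le
    exact Real.rpow_le_rpow_of_exponent_le hR (by linarith)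
  have h96 : 96 * R ≤ T := by
    refine le_trans ?_ hRT16
    exact mul_le_mul_of_nonneg_right (by linarith) hR0.le
  have htz : 3 / 4 * T ≤ tm z₀ ∧ tm z₀ ≤ 3 * T := by
    obtain ⟨z₁, hz₁⟩ := hXne
    obtain ⟨e1, e2, e3⟩ := hX z₁ hz₁
    have e4 := (htm z₁ z₀ 0).2.1
    have e5 := (htm (z₁ - z₀) 0 0).2.2.2
    rw [e4] at e5
    have e6 := abs_le.1 e5
    constructor <;> linarith [e6.1, e6.2]
  obtain ⟨htz1, htz2⟩ := htz
  obtain ⟨S₁, N', q₄, M, t, Λ_A, hS₁, hΛA, ht, hS₁p, hM, hq₄, hXN, hE1, hE2, hE3, hE4, hE5, hE6,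
    hE7, hE8⟩ := hTDA κ R A H a b G z₀ S l k QQ ν X hκ0 hκ1 hR (hCAC.trans hC'R) hA hH hAH hCls
      hSep hXne (fun z hz => (hX z hz).1) (fun W hW => ⟨(hS W hW).1, (hS W hW).2.2.1,
        (hS W hW).2.2.2.1, (hS W hW).2.2.2.2⟩) hScard ha hb hsat hν hνQ hν2 hXQ hQQ
        (hCAC.trans (hCfC.trans hCk)) hXH
  set Λ : ℝ := C' * R ^ (10 * lo m * (δ + ε₀)) with hΛ
  have hRp : 1 ≤ R ^ (10 * lo m * (δ + ε₀)) := Real.one_le_rpow hR (by positivity)
  have hΛ4 : 4 ≤ Λ := by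
    rw [hΛ]
    exact hC'4.trans (le_mul_of_one_le_right (by linarith only [hC'4]) hRp)
  have hΛ0 : 0 < Λ := by linarith only [hΛ4]
  have hΛle : Λ_A ≤ Λ := by
    rw [hΛA, hΛ]
    exact mul_le_mul_of_nonneg_right hCAC (by positivity)
  have hCle : ∀ (c p : ℝ), c ≤ C' → p ≤ 10 * lo m * (δ + ε₀) → c * R ^ p ≤ Λ := by
    intro c p hc hp
    rw [hΛ]
    refine mul_le_mul hc (Real.rpow_le_rpow_of_exponent_le hR hp) (by positivity) (by linarith)
  have hN'0 : 0 < N' := by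
    have e1 : (0 : ℝ) < X.card := by exact_mod_cast hXne.card_pos
    have e2 : 0 < R ^ δ * N' := lt_of_lt_of_le e1 hXN
    exact pos_of_mul_pos_right e2 (by positivity)
  have ht1 : 1 ≤ t := hM.trans hE8
  have ht0 : 0 < t := by linarith
  have hM0 : 0 < M := by linarith
  have hb0 : 0 < b := by linarith
  have hS₁ne : S₁.Nonempty := by
    by_contra hno
    rw [Finset.not_nonempty_iff_eq_empty] at hno
    rw [hno, Finset.image_empty, Finset.card_empty, Nat.cast_zero] at ht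
    linarith
  set n : ℝ := (2 : ℝ) ^ (l + k) with hn
  have hn0 : 0 < n := by positivity
  clear_value n Λ
  have hfib : ∀ TT : Finset (Pk m), TT ⊆ S₁.image (tb R) →
      b * TT.card ≤ ((S₁.filter (fun W => tb R W ∈ TT)).card : ℝ) := fun TT hTT =>
    fibre (tb R) S S₁ b (fun W hW => (hsat W (hS₁ hW)).1) (fun W hW => (hS₁p W hW).2) TT hTT
  -- the energy
  have hD : t * b * a ^ 2 * R ^ (((m : ℝ) + 2) / 2) ≤ En := by
    have e1 : t * b ≤ S₁.card := by
      have := hfib (S₁.image (tb R)) subset_rfl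
      rw [← ht] at this
      have e2 : ((S₁.filter (fun W => tb R W ∈ S₁.image (tb R))).card : ℝ) ≤ S₁.card := by
        exact_mod_cast Finset.card_filter_le _ _
      linarith
    refine le_trans ?_ hEnS
    have e2 : (S₁.card : ℝ) * (a ^ 2 * R ^ (((m : ℝ) + 2) / 2)) ≤
        ∑ W ∈ S₁, al N β R δ G W ^ 2 * R ^ (((m : ℝ) + 2) / 2) := by
      rw [← nsmul_eq_mul]
      refine Finset.card_nsmul_le_sum _ _ _ fun W hW => ?_
      have e3 := (hS W (hS₁ hW)).2.2.2.1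
      gcongr
    have e3 : ∑ W ∈ S₁, al N β R δ G W ^ 2 * R ^ (((m : ℝ) + 2) / 2) ≤
        ∑ W ∈ S, al N β R δ G W ^ 2 * R ^ (((m : ℝ) + 2) / 2) :=
      Finset.sum_le_sum_of_subset_of_nonneg hS₁ fun W _ _ => by positivity
    refine le_trans ?_ (e2.trans e3)
    have e4 : t * b * a ^ 2 * R ^ (((m : ℝ) + 2) / 2) =
        t * b * (a ^ 2 * R ^ (((m : ℝ) + 2) / 2)) := by ring
    rw [e4]
    exact mul_le_mul_of_nonneg_right e1 (by positivity)
  have haA : a ≤ Λ * A := by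
    obtain ⟨W, hW⟩ := hS₁ne
    have e1 := (hS W (hS₁ hW)).2.2.2.1
    have e2 := (hAMU κ R A G W hκ0 (by linarith) hR hA hCls).1
    refine e1.trans (e2.trans (mul_le_mul_of_nonneg_right ?_ hA.le))
    have := hCle C_M 0 hCMC (by positivity)
    rwa [Real.rpow_zero, mul_one] at this
  have hE1' : N' * H ^ (2 * ((m : ℝ) + 2) / m) ≤ Λ * M ^ (2 / (m : ℝ)) *
      a ^ (2 * ((m : ℝ) + 2) / m) * (t * b) * R ^ (((m : ℝ) + 2) / 2) := by
    refine hE1.trans ?_
    gcongr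
  have hE2' : N' * H ^ 2 ≤ Λ * q₄ * M * b * a ^ 2 * R ^ (((m : ℝ) + 1) / 2) := by
    refine hE2.trans ?_
    gcongr
  have hE4' : q₄ * M ≤ Λ * Real.sqrt R * t := by
    refine hE4.trans ?_
    gcongr
  have hE5' : (QQ.card : ℝ) ≤ Λ * q₄ := by
    refine hE5.trans ?_
    gcongr
  have hE6' : M * n ≤ Λ * QQ.card := by
    refine hE6.trans ?_
    gcongr
  have hE7' : n ≤ Λ * Real.sqrt R := by
    refine hE7.trans ?_
    gcongr
  by_cases hc : (n / Real.sqrt R) ^ (1 - m * x / 4) * (M * a ^ 2 / A ^ 2) ^ (x / 2) ≤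
      R ^ (m * x / 2 - 1)
  · have h1 := case1 hm0 hx0 (by rw [hmx]; linarith) hR hn0 hM ha hA hΛ0 ht0.le hb0.le hN'0.le
      hH hE1' hE2' hE3 hD hc
    have e0 : 0 ≤ A ^ x * R ^ ((m : ℝ) * x / 2 - 1) * En := by positivity
    have h2 := fin1 (Rq := R ^ ((lb m - 1) * (δ + ε₀))) hXN (by positivity) h1 (by positivity) e0
      hΛ (by linarith only [hC'4]) hC4f (by
        rw [← Real.rpow_add hR0]
        refine Real.rpow_le_rpow_of_exponent_le hR ?_
        rw [hlo, hlb]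
        exact (exps hy6 hδ hε₀).2.2.2) (by positivity)
    refine h2.trans (le_of_eq ?_)
    simp only [mul_assoc]
  · exfalso
    rw [not_le] at hc
    have hΛR : Λ ≤ R ^ γ' := by
      rw [hΛ]
      have e1 : C' * R ^ (10 * lo m * (δ + ε₀)) ≤ R ^ δ * R ^ (10 * lo m * (δ + ε₀)) :=
        mul_le_mul_of_nonneg_right hC'R (by positivity)
      refine e1.trans ?_
      rw [← Real.rpow_add hR0]
      refine Real.rpow_le_rpow_of_exponent_le hR ?_
      exact exps2 (by linarith only [hlo0]) hδ hγ' (hδγ.trans (min_le_left _ _))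
        (hε₀γ.trans (min_le_left _ _))
    have hQ0 : (0 : ℝ) < QQ.card := by
      obtain ⟨z₁, hz₁⟩ := hXne
      have : QQ.Nonempty := ⟨_, hXQ z₁ hz₁⟩
      exact_mod_cast this.card_pos
    have hEn2 : t * b * a ^ 2 * R ^ (((m : ℝ) + 2) / 2) ≤ Λ * (A ^ 2 * R ^ ((m : ℝ) + 2)) := by
      refine hD.trans (hEnB.trans (mul_le_mul_of_nonneg_right ?_ (by positivity)))
      exact hCle B _ hBC' (exps hy6 hδ hε₀).1
    obtain ⟨hω6, hω1, K, Θ, hK, hΘ, hQΘ, hΘK, hlast⟩ := hCFN R Λ t M b n QQ.card q₄ a A x hR₀R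
      hΛ4 hΛR ht0 hM hb hn0 hQ0 hq₄ ha hA rfl hE3 hE5' hE6' hE4' hE8 hEn2 haA hE7' hc
    set ω : ℝ := n / (Λ * Real.sqrt R) with hω
    have hω0 : 0 < ω := by positivity
    have hωn : ω * Real.sqrt R = n / Λ := by
      rw [hω]
      field_simp
    clear_value ω
    obtain ⟨p, TT₂, hTT₂, hTTc, hTT₂p⟩ := hCBA R T δ n ω K Θ z₀ (S₁.image (tb R)) QQ hR hδ.le
      hRT16 htz1 htz2 (by
        intro Tu hTu
        obtain ⟨W, hW, rfl⟩ := Finset.mem_image.1 hTu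
        exact ⟨(hS W (hS₁ hW)).2.2.1, (hS₁p W hW).1⟩)
      hQQ hω0 hω1 (by
        rw [hωn]
        have e1 := hCle C_B (2 * ((m : ℝ) + 2) * δ) hCBC (exps hy6 hδ hε₀).2.1
        rw [← mul_div_assoc, div_le_iff₀ hΛ0, mul_comm n Λ]
        exact mul_le_mul_of_nonneg_right e1 hn0.le)
      hω6 hΘ hQΘ hK (by rw [← ht]; exact hΘK)
    rw [← ht] at hTTc
    have hS₂ := hfib TT₂ hTT₂
    set S₂ : Finset (Pk m) := S₁.filter (fun W => tb R W ∈ TT₂) with hS₂def
    have hTsR : R ^ (1 / 2 + δ) * R ^ δ ≤ T * sR R := by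
      have e1 : R ^ (1 + ε₂) * sR R ≤ T * sR R :=
        mul_le_mul_of_nonneg_right hRT (by unfold sR; positivity)
      refine le_trans ?_ e1
      have e2 : sR R = R ^ (-(1 / 2) : ℝ) := by
        unfold sR
        rw [Real.sqrt_eq_rpow, Real.rpow_neg hR0.le]
      rw [e2, ← Real.rpow_add hR0, ← Real.rpow_add hR0]
      exact Real.rpow_le_rpow_of_exponent_le hR (by linarith)
    have hhalf : ((m : ℝ) + 3) * R ^ (1 / 2 + δ) ≤ R := by
      have e1 : R ^ (1 / 2 + δ) * R ^ δ ≤ R := by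
        rw [← Real.rpow_add hR0]
        calc R ^ (1 / 2 + δ + δ) ≤ R ^ (1 : ℝ) :=
              Real.rpow_le_rpow_of_exponent_le hR (by linarith)
          _ = R := Real.rpow_one R
      refine le_trans ?_ e1
      rw [mul_comm]
      exact mul_le_mul_of_nonneg_left hm3R (by positivity)
    have hPTC' := hPTC κ R T A a G z₀ p S₂ hκ0 hκ1 hR (hCPC.trans hC'R) hRT hA ha hCls hBC htz1
      htz2 (by
        have e1 : (S₂.card : ℝ) ≤ S.card := by
          exact_mod_cast Finset.card_le_card ((Finset.filter_subset _ _).trans hS₁)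
        refine e1.trans (hScard.trans (mul_le_mul_of_nonneg_right (by linarith) (by positivity))))
      (by
        intro W hW
        obtain ⟨hW1, hW2⟩ := Finset.mem_filter.1 hW
        refine ⟨(hS W (hS₁ hW1)).1, (hS W (hS₁ hW1)).2.2.2.1, ?_⟩
        obtain ⟨q, hq, hInc, hbp⟩ := hTT₂p (tb R W) hW2
        obtain ⟨z, hz1, hz2⟩ := hTUB m R δ W q hR hδ.le hInc
        have hz2' : ‖z - co R q‖ ≤ ((m : ℝ) + 3) * R ^ (1 / 2 + δ) := hz2
        have hco : ‖co R q - z₀‖ ≤ ((m : ℝ) + 2) * R := hQQ q hq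
        refine ⟨z, hz1, ?_, ?_⟩
        · calc ‖z - z₀‖ = ‖(z - co R q) + (co R q - z₀)‖ := by rw [sub_add_sub_cancel]
            _ ≤ ‖z - co R q‖ + ‖co R q - z₀‖ := norm_add_le _ _
            _ ≤ R + ((m : ℝ) + 2) * R := add_le_add (hz2'.trans hhalf) hco
            _ = ((m : ℝ) + 3) * R := by ring
            _ ≤ (B + m + 10) * R := mul_le_mul_of_nonneg_right (by linarith) hR0.le
        · have hη : ‖ctr (sR R) W.1‖ ≤ 3 := (hS W (hS₁ hW1)).2.2.1
          have hbp' : ‖bp (ctr (sR R) W.1) (co R q) - p‖ ≤ T * sR R := hbp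
          have e1 : bp (ctr (sR R) W.1) z - p =
              bp (ctr (sR R) W.1) (z - co R q) + (bp (ctr (sR R) W.1) (co R q) - p) := by
            rw [(hbpadd (ctr (sR R) W.1) z (co R q)).2]
            abel
          have e2 : ‖bp (ctr (sR R) W.1) (z - co R q)‖ ≤ T * sR R := by
            refine ((hbpn (ctr (sR R) W.1) (z - co R q) hη).1).trans ?_
            refine le_trans ?_ hTsR
            calc C_D * ‖z - co R q‖ ≤ C_D * (((m : ℝ) + 3) * R ^ (1 / 2 + δ)) :=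
                  mul_le_mul_of_nonneg_left hz2' (by linarith)
              _ = R ^ (1 / 2 + δ) * (C_D * ((m : ℝ) + 3)) := by ring
              _ ≤ R ^ (1 / 2 + δ) * R ^ δ :=
                  mul_le_mul_of_nonneg_left hCDR (by positivity)
          have e3 : 0 ≤ T * sR R := (norm_nonneg _).trans e2
          calc ‖bp (ctr (sR R) W.1) z - p‖ ≤ T * sR R + T * sR R := by
                rw [e1]
                exact (norm_add_le _ _).trans (add_le_add e2 hbp')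
            _ = 2 * (T * sR R) := by ring
            _ ≤ (B + m + 10) * (T * sR R) := mul_le_mul_of_nonneg_right (by linarith) e3)
    have hS₂a : (S₂.card : ℝ) * a ^ 2 ≤ Λ * (A ^ 2 * R ^ 2) := by
      refine hPTC'.trans (mul_le_mul_of_nonneg_right ?_ (by positivity))
      exact hCle C_P _ hCPC (exps hy6 hδ hε₀).1
    have hCR4 : C_B * R ^ (4 * δ) ≤ Λ := hCle C_B _ hCBC (exps hy6 hδ hε₀).2.2.1
    have hmono : (K * (C_B * R ^ (4 * δ) / ω ^ 7) ^ (4 * (m + 2))) ^ C₀ ≤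
        (K * (Λ / ω ^ 7) ^ (4 * (m + 2))) ^ C₀ := by
      have hC_B0 : 0 ≤ C_B := by linarith
      gcongr
    have hfin := fin2 hTTc hmono (by linarith only [hΘ]) (Nat.cast_nonneg _) (by positivity)
      hb0.le hS₂ hS₂a
    exact absurd hfin (not_le.2 hlast)

end Pool.Agent.H62.HD
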